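import Pool.Agent.H162R2.AG.All3
import Pool.Agent.H162R2.AG.FinT

/-!
# List total colouring of almost all graphs

Project of helper162 with helpers 477, 267, 372, 143, 20, 251, 97, 84, 804, 997, 540, 52, 439,
598, 89, 501, 889, 231, 92, 431, 837, 551, 25, 79, 662.
-/

set_option autoImplicit false

namespace Pool.Agent.Results.MP_16dc44_co.AlmostAllGraphs

/-- The proportion of the labelled graphs on `n` vertices for which the list total colouring
conjecture holds (that is: for every `k` such that there is a proper total colouring with `k`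
colours, there is a proper total colouring from any lists of at least `k` colours) tends
to `1`. -/
theorem result : Filter.Tendsto (fun n : ℕ =>
    ({G : SimpleGraph (Fin n) | ∀ k : ℕ,
      (∃ c : Fin n ⊕ G.edgeSet → Fin k,
        (∀ u v : Fin n, G.Adj u v → c (Sum.inl u) ≠ c (Sum.inl v)) ∧
        (∀ e f : G.edgeSet, e ≠ f →
          (∃ v : Fin n, v ∈ (e : Sym2 (Fin n)) ∧ v ∈ (f : Sym2 (Fin n))) →
            c (Sum.inr e) ≠ c (Sum.inr f)) ∧
        (∀ (v : Fin n) (e : G.edgeSet), v ∈ (e : Sym2 (Fin n)) →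
            c (Sum.inl v) ≠ c (Sum.inr e))) →
      ∀ L : Fin n ⊕ G.edgeSet → Finset ℕ, (∀ x, k ≤ (L x).card) →
        ∃ c : Fin n ⊕ G.edgeSet → ℕ,
          (∀ x, c x ∈ L x) ∧
          (∀ u v : Fin n, G.Adj u v → c (Sum.inl u) ≠ c (Sum.inl v)) ∧
          (∀ e f : G.edgeSet, e ≠ f →
            (∃ v : Fin n, v ∈ (e : Sym2 (Fin n)) ∧ v ∈ (f : Sym2 (Fin n))) →
              c (Sum.inr e) ≠ c (Sum.inr f)) ∧
          (∀ (v : Fin n) (e : G.edgeSet), v ∈ (e : Sym2 (Fin n)) →
              c (Sum.inl v) ≠ c (Sum.inr e))}.ncard : ℝ) /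
      (Nat.card (SimpleGraph (Fin n)) : ℝ)) Filter.atTop (nhds 1) :=
  Pool.Agent.H162R2.AG.almost_all_total Pool.Agent.H162R2.AG.tAAP

end Pool.Agent.Results.MP_16dc44_co.AlmostAllGraphs
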