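import Pool.Agent.H162R2.LEC.Total

/-!
# The list total colouring conjecture for the complete graphs `K_{p-2}`

For every odd prime `p`: every graph on `p - 2` vertices that has a vertex adjacent to all the
others satisfies `ch'' = χ''`, in particular the complete graph `K_{p-2}`.
-/

set_option autoImplicit false

namespace Pool.Agent.Results.MP_16dc44_co.OrderPMinusTwo

open Pool.Agent.H162R2.LEC

/-- Let `p` be an odd prime and `G` a graph on `p - 2` vertices with a vertex adjacent to all the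
others. If `G` has a proper total colouring with `k` colours, then it has one from all lists of
size at least `k`. -/
theorem result (p : ℕ) (hp : p.Prime) (hp2 : p ≠ 2) (V : Type) [Fintype V] (G : SimpleGraph V)
    (hV : Fintype.card V = p - 2) (v₀ : V) (hv : ∀ w, w ≠ v₀ → G.Adj v₀ w) (k : ℕ) :
    (∃ c : V ⊕ G.edgeSet → Fin k,
      (∀ u v : V, G.Adj u v → c (Sum.inl u) ≠ c (Sum.inl v)) ∧
      (∀ e f : G.edgeSet, e ≠ f →
        (∃ v : V, v ∈ (e : Sym2 V) ∧ v ∈ (f : Sym2 V)) →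
          c (Sum.inr e) ≠ c (Sum.inr f)) ∧
      (∀ (v : V) (e : G.edgeSet), v ∈ (e : Sym2 V) →
          c (Sum.inl v) ≠ c (Sum.inr e))) →
    ∀ L : V ⊕ G.edgeSet → Finset ℕ, (∀ x, k ≤ (L x).card) →
      ∃ c : V ⊕ G.edgeSet → ℕ,
        (∀ x, c x ∈ L x) ∧
        (∀ u v : V, G.Adj u v → c (Sum.inl u) ≠ c (Sum.inl v)) ∧
        (∀ e f : G.edgeSet, e ≠ f →
          (∃ v : V, v ∈ (e : Sym2 V) ∧ v ∈ (f : Sym2 V)) →
            c (Sum.inr e) ≠ c (Sum.inr f)) ∧
        (∀ (v : V) (e : G.edgeSet), v ∈ (e : Sym2 V) →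
            c (Sum.inl v) ≠ c (Sum.inr e)) := by
  intro hcol L hL
  have : Fact p.Prime := ⟨hp⟩
  obtain ⟨m, hm⟩ : ∃ m, p = m + 2 := ⟨p - 2, by have := hp.two_le; omega⟩
  have hodd : Odd p := hp.odd_of_ne_two hp2
  have hev : Even (m + 1) := by
    obtain ⟨r, hr⟩ := hodd
    exact ⟨r, by omega⟩
  refine listTotal_of_top (W := Fin (m + 1)) m (by simp) (choosable_top_p_sub_one hm hev)
    (by omega) G v₀ hv k hcol L hL

end Pool.Agent.Results.MP_16dc44_co.OrderPMinusTwo
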