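import Pool.Agent.H162R2.Sparse.Total

/-!
# List total colourings of graphs with `mad(G) <= c Delta / log Delta`

`ch''(G) = χ''(G) = D + 1` for every finite simple graph `G` of maximum degree `D` whose maximum
average degree `a` satisfies `34 * a * (1 + log D) <= D`. Earlier results of this kind need
`a <= sqrt (2 * D)`.
-/

set_option autoImplicit false

namespace Pool.Agent.Results.MP_16dc44_co.SparseTotal

/-- `c` is a proper total colouring of `G` -/
def IsTotalColouring {V C : Type} (G : SimpleGraph V) (c : V ⊕ G.edgeSet → C) : Prop :=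
  (∀ u v : V, G.Adj u v → c (Sum.inl u) ≠ c (Sum.inl v)) ∧
  (∀ e f : G.edgeSet, e ≠ f → (∃ v : V, v ∈ (e : Sym2 V) ∧ v ∈ (f : Sym2 V)) →
      c (Sum.inr e) ≠ c (Sum.inr f)) ∧
  (∀ (v : V) (e : G.edgeSet), v ∈ (e : Sym2 V) → c (Sum.inl v) ≠ c (Sum.inr e))

/-- Let `G` be a finite simple graph of maximum degree `D` and let `a` be a real number such that
every set `X` of vertices spans at most `a * |X| / 2` edges (at most `a * |X|` ordered pairs of
adjacent vertices), i.e. the maximum average degree of `G` is at most `a`. If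
`34 * a * (1 + log D) ≤ D`, then `χ''(G) = ch''(G) = D + 1`: for every `k`, the graph has a proper
total colouring with `k` colours iff `k ≥ D + 1`, and it has a proper total colouring from all
lists of size at least `k` iff `k ≥ D + 1`. -/
theorem result (V : Type) [Fintype V] (G : SimpleGraph V) (D : ℕ)
    (hD : ∀ v, (G.neighborSet v).ncard ≤ D) (v : V) (hv : (G.neighborSet v).ncard = D)
    (a : ℝ) (hmad : ∀ X : Finset V,
      ({e : V × V | e.1 ∈ X ∧ e.2 ∈ X ∧ G.Adj e.1 e.2}.ncard : ℝ) ≤ a * X.card)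
    (ha : 34 * a * (1 + Real.log D) ≤ D) (k : ℕ) :
    ((∃ c : V ⊕ G.edgeSet → Fin k, IsTotalColouring G c) ↔ D + 1 ≤ k) ∧
    ((∀ L : V ⊕ G.edgeSet → Finset ℕ, (∀ x, k ≤ (L x).card) →
      ∃ c : V ⊕ G.edgeSet → ℕ, (∀ x, c x ∈ L x) ∧ IsTotalColouring G c) ↔ D + 1 ≤ k) := by
  classical
  have h1 : (∃ c : V ⊕ G.edgeSet → Fin k, IsTotalColouring G c) → D + 1 ≤ k :=
    Pool.Agent.H162R2.Sparse.total_lower G D v hv k
  have h2 : D + 1 ≤ k → (∀ L : V ⊕ G.edgeSet → Finset ℕ, (∀ x, k ≤ (L x).card) →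
      ∃ c : V ⊕ G.edgeSet → ℕ, (∀ x, c x ∈ L x) ∧ IsTotalColouring G c) := by
    intro hk L hL
    exact Pool.Agent.H162R2.Sparse.total_sparse G D hD a hmad ha L (fun x => hk.trans (hL x))
  have h3 : (∀ L : V ⊕ G.edgeSet → Finset ℕ, (∀ x, k ≤ (L x).card) →
      ∃ c : V ⊕ G.edgeSet → ℕ, (∀ x, c x ∈ L x) ∧ IsTotalColouring G c) →
      (∃ c : V ⊕ G.edgeSet → Fin k, IsTotalColouring G c) := by
    intro h
    obtain ⟨c, hc1, hc2, hc3, hc4⟩ := h (fun _ => Finset.range k) (fun _ => by simp)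
    refine ⟨fun x => ⟨c x, Finset.mem_range.1 (hc1 x)⟩, ?_, ?_, ?_⟩
    · intro u w huw h
      exact hc2 u w huw (Fin.mk.inj_iff.1 h)
    · intro e f hef hx h
      exact hc3 e f hef hx (Fin.mk.inj_iff.1 h)
    · intro w e hw h
      exact hc4 w e hw (Fin.mk.inj_iff.1 h)
  exact ⟨⟨h1, fun h => h3 (h2 h)⟩, ⟨fun h => h1 (h3 h), h2⟩⟩

end Pool.Agent.Results.MP_16dc44_co.SparseTotal
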